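import Mathlib

open Finset

namespace Pool.Agent.MP_44674b_co

/-- A `d`-class symmetric association scheme on the finite set `X`: `rel x y` is the index
`i` of the relation `R_i` containing the pair `(x, y)`. -/
structure SymScheme (X : Type) [Fintype X] [DecidableEq X] (d : ℕ) where
  rel : X → X → Fin (d + 1)
  nonempty : ∀ i, ∃ x y, rel x y = i
  diag : ∀ x y, rel x y = 0 ↔ x = y
  symm : ∀ x y, rel x y = rel y x
  regular : ∀ i j k : Fin (d + 1), ∃ p : ℕ, ∀ x y, rel x y = k →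
    (univ.filter fun z => rel x z = i ∧ rel z y = j).card = p

variable {X : Type} [Fintype X] [DecidableEq X] {d : ℕ}

namespace SymScheme

/-- The adjacency matrix `A_i`. -/
def A (S : SymScheme X d) (i : Fin (d + 1)) : Matrix X X ℂ :=
  Matrix.of fun x y => if S.rel x y = i then 1 else 0

/-- The Bose-Mesner algebra, the span of the adjacency matrices. -/
def BM (S : SymScheme X d) : Submodule ℂ (Matrix X X ℂ) := Submodule.span ℂ (Set.range S.A)

/-- `e` is a primitive idempotent of the Bose-Mesner algebra. -/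
def IsPrimitiveIdempotent (S : SymScheme X d) (e : Matrix X X ℂ) : Prop :=
  e ∈ S.BM ∧ e * e = e ∧ e ≠ 0 ∧ ∀ f ∈ S.BM, f * f = f → e * f = f → f = 0 ∨ f = e

/-- The `A_i` and the primitive idempotents `E_j`, with `E_0 = |X|⁻¹ J`, can be ordered so
that the eigenmatrices `P` and `Q` coincide. -/
def FormallySelfDual (S : SymScheme X d) : Prop :=
  ∃ (σ : Equiv.Perm (Fin (d + 1))) (E : Fin (d + 1) → Matrix X X ℂ)
    (P Q : Matrix (Fin (d + 1)) (Fin (d + 1)) ℂ),
    Function.Injective E ∧ (∀ e, S.IsPrimitiveIdempotent e ↔ ∃ j, E j = e) ∧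
    E 0 = (Fintype.card X : ℂ)⁻¹ • Matrix.of (fun _ _ => (1 : ℂ)) ∧
    (∀ i, S.A (σ i) = ∑ j, P j i • E j) ∧
    (∀ i, E i = (Fintype.card X : ℂ)⁻¹ • ∑ j, Q j i • S.A (σ j)) ∧
    P = Q

end SymScheme

/-- The tensor `Δ(L, M, N)`, given by its coordinates in the basis `x̂ ⊗ ŷ ⊗ ẑ`. -/
def triangle (L M N : Matrix X X ℂ) : X → X → X → ℂ :=
  fun x y z => L x z * M x y * N y z

/-- The tensor `Y(L, M, N)`, given by its coordinates in the basis `x̂ ⊗ ŷ ⊗ ẑ`. -/
def star (L M N : Matrix X X ℂ) : X → X → X → ℂ :=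
  fun x y z => ∑ u, L x u * M y u * N z u

namespace SymScheme

/-- `W_Δ`. -/
def WTriangle (S : SymScheme X d) : Submodule ℂ (X → X → X → ℂ) :=
  Submodule.span ℂ {t | ∃ L ∈ S.BM, ∃ M ∈ S.BM, ∃ N ∈ S.BM, t = triangle L M N}

/-- `W_Y`. -/
def WStar (S : SymScheme X d) : Submodule ℂ (X → X → X → ℂ) :=
  Submodule.span ℂ {t | ∃ L ∈ S.BM, ∃ M ∈ S.BM, ∃ N ∈ S.BM, t = star L M N}

/-- Triple regularity. -/
def TriplyRegular (S : SymScheme X d) : Prop :=
  ∀ i j k : Fin (d + 1), ∀ x y z x' y' z' : X,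
    S.rel x y = S.rel x' y' → S.rel x z = S.rel x' z' → S.rel y z = S.rel y' z' →
    (univ.filter fun u => S.rel x u = i ∧ S.rel y u = j ∧ S.rel z u = k).card =
      (univ.filter fun u => S.rel x' u = i ∧ S.rel y' u = j ∧ S.rel z' u = k).card

/-- Dual triple regularity. -/
def DuallyTriplyRegular (S : SymScheme X d) : Prop := S.WTriangle ≤ S.WStar

/-- Exact triple regularity. -/
def ExactlyTriplyRegular (S : SymScheme X d) : Prop :=
  S.TriplyRegular ∧ S.DuallyTriplyRegular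

end SymScheme

end Pool.Agent.MP_44674b_co
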