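import Mathlib
import Pool.Agent.MP_44674b_co.Defs

open Finset

namespace Pool.Agent.MP_44674b_co

variable {X : Type} [Fintype X] [DecidableEq X] {d : ℕ}

namespace SymScheme

lemma mem_BM_iff (S : SymScheme X d) (L : Matrix X X ℂ) :
    L ∈ S.BM ↔ ∃ l : Fin (d + 1) → ℂ, ∀ x y, L x y = l (S.rel x y) := by
  unfold BM
  rw [Submodule.mem_span_range_iff_exists_fun]
  constructor
  · rintro ⟨c, rfl⟩
    refine ⟨c, fun x y => ?_⟩
    rw [Matrix.sum_apply, Finset.sum_eq_single (S.rel x y)]
    · simp [A]
    · intro b _ hb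
      simp [A, Ne.symm hb]
    · simp
  · rintro ⟨l, hl⟩
    refine ⟨l, ?_⟩
    ext x y
    rw [Matrix.sum_apply, Finset.sum_eq_single (S.rel x y), hl]
    · simp [A]
    · intro b _ hb
      simp [A, Ne.symm hb]
    · simp

lemma mem_WTriangle_iff (S : SymScheme X d) (f : X → X → X → ℂ) :
    f ∈ S.WTriangle ↔ ∃ g : Fin (d + 1) → Fin (d + 1) → Fin (d + 1) → ℂ,
      ∀ x y z, f x y z = g (S.rel x y) (S.rel x z) (S.rel y z) := by
  constructor
  · intro hf
    unfold WTriangle at hf
    induction hf using Submodule.span_induction with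
    | mem f h =>
      obtain ⟨L, hL, M, hM, N, hN, rfl⟩ := h
      obtain ⟨l, hl⟩ := (S.mem_BM_iff L).1 hL
      obtain ⟨m, hm⟩ := (S.mem_BM_iff M).1 hM
      obtain ⟨n, hn⟩ := (S.mem_BM_iff N).1 hN
      refine ⟨fun a b c => l b * m a * n c, fun x y z => ?_⟩
      simp only [triangle, hl, hm, hn]
    | zero => exact ⟨fun _ _ _ => 0, fun _ _ _ => rfl⟩
    | add f f' _ _ h h' =>
      obtain ⟨g, hg⟩ := h
      obtain ⟨g', hg'⟩ := h'
      exact ⟨fun a b c => g a b c + g' a b c, fun x y z => by
        simp only [Pi.add_apply, hg, hg']⟩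
    | smul c f _ h =>
      obtain ⟨g, hg⟩ := h
      exact ⟨fun a b e => c * g a b e, fun x y z => by
        simp only [Pi.smul_apply, smul_eq_mul, hg]⟩
  · rintro ⟨g, hg⟩
    have : f = ∑ a, ∑ b, ∑ c, g a b c • triangle (S.A b) (S.A a) (S.A c) := by
      funext x y z
      simp only [Finset.sum_apply, Pi.smul_apply, smul_eq_mul]
      rw [Finset.sum_eq_single (S.rel x y), Finset.sum_eq_single (S.rel x z),
        Finset.sum_eq_single (S.rel y z), hg]
      · simp [triangle, A]
      · intro b _ hb; simp [triangle, A, Ne.symm hb]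
      · simp
      · intro b _ hb
        refine Finset.sum_eq_zero fun c _ => ?_
        simp [triangle, A, Ne.symm hb]
      · simp
      · intro b _ hb
        refine Finset.sum_eq_zero fun c _ => Finset.sum_eq_zero fun e _ => ?_
        simp [triangle, A, Ne.symm hb]
      · simp
    rw [this]
    refine Submodule.sum_mem _ fun a _ => Submodule.sum_mem _ fun b _ =>
      Submodule.sum_mem _ fun c _ => Submodule.smul_mem _ _ (Submodule.subset_span ?_)
    exact ⟨_, Submodule.subset_span ⟨b, rfl⟩, _, Submodule.subset_span ⟨a, rfl⟩, _,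
      Submodule.subset_span ⟨c, rfl⟩, rfl⟩

lemma star_A (S : SymScheme X d) (i j k : Fin (d + 1)) (x y z : X) :
    star (S.A i) (S.A j) (S.A k) x y z =
      ((univ.filter fun u => S.rel x u = i ∧ S.rel y u = j ∧ S.rel z u = k).card : ℂ) := by
  unfold star
  rw [Finset.card_filter]
  push_cast
  refine Finset.sum_congr rfl fun u _ => ?_
  by_cases h1 : S.rel x u = i <;> by_cases h2 : S.rel y u = j <;> by_cases h3 : S.rel z u = k <;>
    simp [A, h1, h2, h3]

/-- The two descriptions of triple regularity agree. -/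
theorem triplyRegular_iff (S : SymScheme X d) : S.TriplyRegular ↔ S.WStar ≤ S.WTriangle := by
  constructor
  · intro h
    refine Submodule.span_le.2 ?_
    rintro _ ⟨L, hL, M, hM, N, hN, rfl⟩
    rw [SetLike.mem_coe, mem_WTriangle_iff]
    obtain ⟨l, hl⟩ := (S.mem_BM_iff L).1 hL
    obtain ⟨m, hm⟩ := (S.mem_BM_iff M).1 hM
    obtain ⟨n, hn⟩ := (S.mem_BM_iff N).1 hN
    have key : ∀ x y z x' y' z', S.rel x y = S.rel x' y' → S.rel x z = S.rel x' z' →
        S.rel y z = S.rel y' z' → star L M N x y z = star L M N x' y' z' := by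
      intro x y z x' y' z' h1 h2 h3
      have e : ∀ x y z, star L M N x y z = ∑ i, ∑ j, ∑ k, l i * m j * n k *
          ((univ.filter fun u => S.rel x u = i ∧ S.rel y u = j ∧ S.rel z u = k).card : ℂ) := by
        intro x y z
        simp only [← star_A]
        unfold star
        simp only [Finset.mul_sum]
        rw [Finset.sum_congr rfl fun i _ => Finset.sum_congr rfl fun j _ => Finset.sum_comm]
        rw [Finset.sum_congr rfl fun i _ => Finset.sum_comm, Finset.sum_comm]
        refine Finset.sum_congr rfl fun u _ => ?_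
        rw [Finset.sum_eq_single (S.rel x u), Finset.sum_eq_single (S.rel y u),
          Finset.sum_eq_single (S.rel z u)]
        · simp [A, hl, hm, hn]
        · intro b _ hb; simp [A, Ne.symm hb]
        · simp
        · intro b _ hb
          refine Finset.sum_eq_zero fun c _ => ?_
          simp [A, Ne.symm hb]
        · simp
        · intro b _ hb
          refine Finset.sum_eq_zero fun c _ => Finset.sum_eq_zero fun e _ => ?_
          simp [A, Ne.symm hb]
        · simp
      rw [e, e]
      refine Finset.sum_congr rfl fun i _ => Finset.sum_congr rfl fun j _ =>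
        Finset.sum_congr rfl fun k _ => ?_
      rw [h i j k x y z x' y' z' h1 h2 h3]
    classical
    refine ⟨fun a b c => if h : ∃ p : X × X × X, S.rel p.1 p.2.1 = a ∧ S.rel p.1 p.2.2 = b ∧
      S.rel p.2.1 p.2.2 = c then star L M N h.choose.1 h.choose.2.1 h.choose.2.2 else 0,
      fun x y z => ?_⟩
    have hex : ∃ p : X × X × X, S.rel p.1 p.2.1 = S.rel x y ∧ S.rel p.1 p.2.2 = S.rel x z ∧
      S.rel p.2.1 p.2.2 = S.rel y z := ⟨(x, y, z), rfl, rfl, rfl⟩
    simp only
    rw [dif_pos hex]
    obtain ⟨h1, h2, h3⟩ := hex.choose_spec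
    exact (key _ _ _ _ _ _ h1 h2 h3).symm
  · intro h i j k x y z x' y' z' h1 h2 h3
    have hmem : star (S.A i) (S.A j) (S.A k) ∈ S.WTriangle := by
      apply h
      exact Submodule.subset_span ⟨_, Submodule.subset_span ⟨i, rfl⟩, _,
        Submodule.subset_span ⟨j, rfl⟩, _, Submodule.subset_span ⟨k, rfl⟩, rfl⟩
    obtain ⟨g, hg⟩ := (S.mem_WTriangle_iff _).1 hmem
    have e1 := hg x y z
    have e2 := hg x' y' z'
    rw [h1, h2, h3, ← e2, star_A, star_A] at e1
    exact_mod_cast e1

end SymScheme

end Pool.Agent.MP_44674b_co
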