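import Mathlib
import Pool.Agent.MP_44674b_co.Defs

open Finset

namespace Pool.Agent.MP_44674b_co
variable {X : Type} [Fintype X] [DecidableEq X] {d : ℕ}

namespace SymScheme

/-- every union `R_0 ∪ ... ∪ R_s` is an equivalence relation -/
def Ultra (S : SymScheme X d) : Prop := ∀ x y z, S.rel x z ≤ max (S.rel x y) (S.rel y z)

lemma exists_valency (S : SymScheme X d) :
    ∃ v : Fin (d + 1) → ℕ, ∀ x i, (univ.filter fun z => S.rel x z = i).card = v i := by
  choose p hp using S.regular
  refine ⟨fun i => p i i 0, fun x i => ?_⟩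
  show _ = p i i 0
  rw [← hp i i 0 x x ((S.diag x x).2 rfl)]
  congr 1
  ext z
  simp only [mem_filter, mem_univ, true_and]
  rw [S.symm z x]
  tauto

/-- the indicator of `rel x y < s` -/
def ind (S : SymScheme X d) (s : ℕ) (x y : X) : ℤ := if (S.rel x y).val < s then 1 else 0

lemma ind_symm (S : SymScheme X d) (s : ℕ) (x y : X) : S.ind s x y = S.ind s y x := by
  unfold ind; rw [S.symm]

lemma ind_sub (S : SymScheme X d) (i : Fin (d + 1)) (x y : X) :
    (if S.rel x y = i then (1 : ℤ) else 0) = S.ind (i.val + 1) x y - S.ind i.val x y := by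
  unfold ind
  have : S.rel x y = i ↔ (S.rel x y).val = i.val := Fin.ext_iff
  by_cases h : (S.rel x y).val = i.val
  · simp [this, h]
  · by_cases h2 : (S.rel x y).val < i.val
    · have h3 : (S.rel x y).val < i.val + 1 := by omega
      simp only [this, h, h2, h3, if_true, if_false]; norm_num
    · have h3 : ¬ (S.rel x y).val < i.val + 1 := by omega
      simp only [this, h, h2, h3, if_false]; norm_num

lemma sum_ind (S : SymScheme X d) (s : ℕ) (x x' : X) : ∑ u, S.ind s x u = ∑ u, S.ind s x' u := by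
  obtain ⟨v, hv⟩ := S.exists_valency
  have key : ∀ x, ∑ u, S.ind s x u = ∑ i : Fin (d + 1), if i.val < s then (v i : ℤ) else 0 := by
    intro x
    have : ∀ u, S.ind s x u = ∑ i : Fin (d + 1), if i.val < s then
        (if S.rel x u = i then (1 : ℤ) else 0) else 0 := by
      intro u
      unfold ind
      rw [Finset.sum_eq_single (S.rel x u)]
      · simp
      · intro b _ hb
        simp [Ne.symm hb]
      · simp
    simp_rw [this]
    rw [Finset.sum_comm]
    refine Finset.sum_congr rfl fun i _ => ?_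
    split_ifs with h
    · rw [← hv x i, Finset.card_filter]
      push_cast
      rfl
    · simp
  rw [key, key]

lemma ultra_lt_iff (S : SymScheme X d) (hS : S.Ultra) {r s : ℕ} (hrs : r ≤ s) {x y u : X}
    (h : (S.rel x u).val < r) : (S.rel y u).val < s ↔ (S.rel x y).val < s := by
  have h1 := hS y x u
  have h2 := hS x u y
  rw [Fin.le_def] at h1 h2
  rw [S.symm y x] at h1
  rw [S.symm u y] at h2
  simp only [Fin.coe_max] at h1 h2
  constructor
  · intro h3
    have := lt_of_le_of_lt h2 (max_lt (lt_of_lt_of_le h hrs) h3)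
    exact this
  · intro h3
    exact lt_of_le_of_lt h1 (max_lt h3 (lt_of_lt_of_le h hrs))

lemma ind_mul (S : SymScheme X d) (hS : S.Ultra) {r s : ℕ} (hrs : r ≤ s) (x y u : X) :
    S.ind r x u * S.ind s y u = S.ind r x u * S.ind s x y := by
  unfold ind
  by_cases h : (S.rel x u).val < r
  · simp only [h, if_true, one_mul, S.ultra_lt_iff hS hrs h]
  · simp only [h, if_false, zero_mul]

lemma sum_ind3 (S : SymScheme X d) (hS : S.Ultra) {r s t : ℕ} (hrs : r ≤ s) (hrt : r ≤ t)
    (x y z : X) : ∑ u, S.ind r x u * S.ind s y u * S.ind t z u =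
      (∑ u, S.ind r x u) * S.ind s x y * S.ind t x z := by
  rw [Finset.sum_mul, Finset.sum_mul]
  refine Finset.sum_congr rfl fun u _ => ?_
  rw [S.ind_mul hS hrs, mul_assoc, mul_comm (S.ind s x y), ← mul_assoc, S.ind_mul hS hrt]
  ring

lemma sum_ind3_congr (S : SymScheme X d) (hS : S.Ultra) (r s t : ℕ) {x y z x' y' z' : X}
    (hxy : S.rel x y = S.rel x' y') (hxz : S.rel x z = S.rel x' z')
    (hyz : S.rel y z = S.rel y' z') :
    ∑ u, S.ind r x u * S.ind s y u * S.ind t z u =
      ∑ u, S.ind r x' u * S.ind s y' u * S.ind t z' u := by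
  have e1 : ∀ s, S.ind s x y = S.ind s x' y' := fun s => by unfold ind; rw [hxy]
  have e2 : ∀ s, S.ind s x z = S.ind s x' z' := fun s => by unfold ind; rw [hxz]
  have e3 : ∀ s, S.ind s y z = S.ind s y' z' := fun s => by unfold ind; rw [hyz]
  by_cases h1 : r ≤ s ∧ r ≤ t
  · rw [S.sum_ind3 hS h1.1 h1.2, S.sum_ind3 hS h1.1 h1.2, S.sum_ind r x x', e1, e2]
  · by_cases h2 : s ≤ r ∧ s ≤ t
    · have c : ∀ x y z, ∑ u, S.ind r x u * S.ind s y u * S.ind t z u =
          (∑ u, S.ind s y u) * S.ind r x y * S.ind t y z := by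
        intro x y z
        rw [S.ind_symm r x y, ← S.sum_ind3 hS h2.1 h2.2]
        exact Finset.sum_congr rfl fun u _ => by ring
      rw [c, c, S.sum_ind s y y', e1, e3]
    · have h3 : t ≤ r ∧ t ≤ s := by omega
      have c : ∀ x y z, ∑ u, S.ind r x u * S.ind s y u * S.ind t z u =
          (∑ u, S.ind t z u) * S.ind r x z * S.ind s y z := by
        intro x y z
        rw [S.ind_symm r x z, S.ind_symm s y z, ← S.sum_ind3 hS h3.1 h3.2]
        exact Finset.sum_congr rfl fun u _ => by ring
      rw [c, c, S.sum_ind t z z', e2, e3]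

theorem Ultra.triplyRegular {S : SymScheme X d} (hS : S.Ultra) : S.TriplyRegular := by
  intro i j k x y z x' y' z' hxy hxz hyz
  have key : ∀ x y z, (((univ.filter fun u => S.rel x u = i ∧ S.rel y u = j ∧
      S.rel z u = k).card : ℕ) : ℤ) = 
      ∑ u, (S.ind (i.val+1) x u - S.ind i.val x u) * (S.ind (j.val+1) y u - S.ind j.val y u) *
        (S.ind (k.val+1) z u - S.ind k.val z u) := by
    intro x y z
    rw [Finset.card_filter]
    push_cast
    refine Finset.sum_congr rfl fun u _ => ?_
    rw [← ind_sub, ← ind_sub, ← ind_sub]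
    by_cases h1 : S.rel x u = i <;> by_cases h2 : S.rel y u = j <;> by_cases h3 : S.rel z u = k <;>
      simp [h1, h2, h3]
  have key2 : ∀ x y z, ∑ u, (S.ind (i.val+1) x u - S.ind i.val x u) *
        (S.ind (j.val+1) y u - S.ind j.val y u) *
        (S.ind (k.val+1) z u - S.ind k.val z u) =
      (∑ u, S.ind (i.val+1) x u * S.ind (j.val+1) y u * S.ind (k.val+1) z u)
      - (∑ u, S.ind (i.val+1) x u * S.ind (j.val+1) y u * S.ind (k.val) z u)
      - (∑ u, S.ind (i.val+1) x u * S.ind (j.val) y u * S.ind (k.val+1) z u)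
      + (∑ u, S.ind (i.val+1) x u * S.ind (j.val) y u * S.ind (k.val) z u)
      - (∑ u, S.ind (i.val) x u * S.ind (j.val+1) y u * S.ind (k.val+1) z u)
      + (∑ u, S.ind (i.val) x u * S.ind (j.val+1) y u * S.ind (k.val) z u)
      + (∑ u, S.ind (i.val) x u * S.ind (j.val) y u * S.ind (k.val+1) z u)
      - (∑ u, S.ind (i.val) x u * S.ind (j.val) y u * S.ind (k.val) z u) := by
    intro x y z
    simp only [← Finset.sum_sub_distrib, ← Finset.sum_add_distrib]
    refine Finset.sum_congr rfl fun u _ => ?_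
    ring
  have : (((univ.filter fun u => S.rel x u = i ∧ S.rel y u = j ∧
      S.rel z u = k).card : ℕ) : ℤ) = (((univ.filter fun u => S.rel x' u = i ∧ S.rel y' u = j ∧
      S.rel z' u = k).card : ℕ) : ℤ) := by
    rw [key, key, key2, key2]
    simp only [S.sum_ind3_congr hS _ _ _ hxy hxz hyz]
  exact_mod_cast this

/-! dual triple regularity -/

/-- the matrix of `R_0 ∪ ... ∪ R_{s-1}` -/
noncomputable def Bm (S : SymScheme X d) (s : ℕ) : Matrix X X ℂ :=
  Matrix.of fun x y => ((S.ind s x y : ℤ) : ℂ)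

lemma Bm_apply (S : SymScheme X d) (s : ℕ) (x y : X) :
    S.Bm s x y = if (S.rel x y).val < s then 1 else 0 := by
  unfold Bm ind
  simp only [Matrix.of_apply]
  split_ifs <;> simp

lemma A_apply (S : SymScheme X d) (i : Fin (d + 1)) (x y : X) :
    S.A i x y = if S.rel x y = i then 1 else 0 := rfl

lemma A_eq_sub (S : SymScheme X d) (i : Fin (d + 1)) :
    S.A i = S.Bm (i.val + 1) - S.Bm i.val := by
  ext x y
  rw [Matrix.sub_apply]
  unfold Bm
  simp only [Matrix.of_apply]
  rw [← Int.cast_sub, ← ind_sub, A_apply]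
  split_ifs <;> simp

lemma Bm_eq_sum (S : SymScheme X d) (s : ℕ) :
    S.Bm s = ∑ i : Fin (d + 1), (if i.val < s then (1 : ℂ) else 0) • S.A i := by
  ext x y
  rw [Bm_apply, Matrix.sum_apply, Finset.sum_eq_single (S.rel x y)]
  · simp [A_apply]
  · intro b _ hb
    simp [A_apply, Ne.symm hb]
  · simp

lemma A_mem (S : SymScheme X d) (i : Fin (d + 1)) : S.A i ∈ S.BM :=
  Submodule.subset_span ⟨i, rfl⟩

lemma Bm_mem (S : SymScheme X d) (s : ℕ) : S.Bm s ∈ S.BM := by
  rw [Bm_eq_sum]
  exact Submodule.sum_mem _ fun i _ => Submodule.smul_mem _ _ (S.A_mem i)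

lemma one_mem (S : SymScheme X d) : (1 : Matrix X X ℂ) ∈ S.BM := by
  have : (1 : Matrix X X ℂ) = S.A 0 := by
    ext x y
    rw [A_apply, Matrix.one_apply]
    simp only [S.diag]
  rw [this]
  exact S.A_mem 0

lemma BM_le (S : SymScheme X d) : S.BM ≤ Submodule.span ℂ (Set.range S.Bm) := by
  refine Submodule.span_le.2 ?_
  rintro _ ⟨i, rfl⟩
  rw [SetLike.mem_coe, A_eq_sub]
  exact Submodule.sub_mem _ (Submodule.subset_span ⟨_, rfl⟩) (Submodule.subset_span ⟨_, rfl⟩)

lemma mem_WStar (S : SymScheme X d) {L M N : Matrix X X ℂ} (hL : L ∈ S.BM)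
    (hM : M ∈ S.BM) (hN : N ∈ S.BM) {f : X → X → X → ℂ}
    (hf : ∀ x y z, f x y z = ∑ u, L x u * M y u * N z u) : f ∈ S.WStar := by
  have : f = star L M N := by
    funext x y z; exact hf x y z
  rw [this]
  exact Submodule.subset_span ⟨L, hL, M, hM, N, hN, rfl⟩

lemma Bm_mul3 (S : SymScheme X d) (hS : S.Ultra) {r s t : ℕ} (hrs : r ≤ t) (hst : s ≤ t)
    (x y z : X) : S.Bm r x z * S.Bm s x y * S.Bm t y z = S.Bm r x z * S.Bm s x y := by
  simp only [Bm_apply]
  by_cases h1 : (S.rel x z).val < r
  · by_cases h2 : (S.rel x y).val < s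
    · have h := hS y x z
      rw [Fin.le_def, S.symm y x] at h
      simp only [Fin.coe_max] at h
      have h3 : (S.rel y z).val < t :=
        lt_of_le_of_lt h (max_lt (lt_of_lt_of_le h2 hst) (lt_of_lt_of_le h1 hrs))
      simp [h1, h2, h3]
    · simp [h2]
  · simp [h1]

lemma Bm_symm (S : SymScheme X d) (s : ℕ) (x y : X) : S.Bm s x y = S.Bm s y x := by
  rw [Bm_apply, Bm_apply, S.symm]

lemma triangle_Bm_mem (S : SymScheme X d) (hS : S.Ultra) (r s t : ℕ) :
    triangle (S.Bm r) (S.Bm s) (S.Bm t) ∈ S.WStar := by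
  unfold triangle
  by_cases h1 : r ≤ t ∧ s ≤ t
  · refine S.mem_WStar S.one_mem (S.Bm_mem s) (S.Bm_mem r) fun x y z => ?_
    rw [S.Bm_mul3 hS h1.1 h1.2, Finset.sum_eq_single x]
    · rw [Matrix.one_apply_eq, S.Bm_symm s y x, S.Bm_symm r z x]; ring
    · intro b _ hb
      rw [Matrix.one_apply_ne (Ne.symm hb)]; ring
    · simp
  · by_cases h2 : s ≤ r ∧ t ≤ r
    · refine S.mem_WStar (S.Bm_mem s) S.one_mem (S.Bm_mem t) fun x y z => ?_
      have := S.Bm_mul3 hS h2.2 h2.1 y x z
      rw [S.Bm_symm s y x] at this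
      rw [show S.Bm r x z * S.Bm s x y * S.Bm t y z = S.Bm t y z * S.Bm s x y * S.Bm r x z by ring,
        this, Finset.sum_eq_single y]
      · rw [Matrix.one_apply_eq, S.Bm_symm t z y]; ring
      · intro b _ hb
        rw [Matrix.one_apply_ne (Ne.symm hb)]; ring
      · simp
    · have h3 : r ≤ s ∧ t ≤ s := by omega
      refine S.mem_WStar (S.Bm_mem r) (S.Bm_mem t) S.one_mem fun x y z => ?_
      have := S.Bm_mul3 hS h3.2 h3.1 z x y
      rw [S.Bm_symm r z x, S.Bm_symm t z y] at this
      rw [show S.Bm r x z * S.Bm s x y * S.Bm t y z = S.Bm t y z * S.Bm r x z * S.Bm s x y by ring,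
        this, Finset.sum_eq_single z]
      · rw [Matrix.one_apply_eq]; ring
      · intro b _ hb
        rw [Matrix.one_apply_ne (Ne.symm hb)]; ring
      · simp

theorem Ultra.duallyTriplyRegular {S : SymScheme X d} (hS : S.Ultra) :
    S.DuallyTriplyRegular := by
  have h3 : ∀ N ∈ Submodule.span ℂ (Set.range S.Bm), ∀ r s : ℕ,
      triangle (S.Bm r) (S.Bm s) N ∈ S.WStar := by
    intro N hN r s
    induction hN using Submodule.span_induction with
    | mem N h =>
      obtain ⟨t, rfl⟩ := h
      exact S.triangle_Bm_mem hS r s t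
    | zero =>
      have : triangle (S.Bm r) (S.Bm s) (0 : Matrix X X ℂ) = 0 := by
        funext x y z; simp [triangle]
      rw [this]
      exact Submodule.zero_mem _
    | add N N' _ _ h h' =>
      have : triangle (S.Bm r) (S.Bm s) (N + N') =
          triangle (S.Bm r) (S.Bm s) N + triangle (S.Bm r) (S.Bm s) N' := by
        funext x y z
        simp only [triangle, Matrix.add_apply, Pi.add_apply]; ring
      rw [this]
      exact Submodule.add_mem _ h h'
    | smul c N _ h =>
      have : triangle (S.Bm r) (S.Bm s) (c • N) = c • triangle (S.Bm r) (S.Bm s) N := by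
        funext x y z
        simp only [triangle, Matrix.smul_apply, Pi.smul_apply, smul_eq_mul]; ring
      rw [this]
      exact Submodule.smul_mem _ _ h
  have h2 : ∀ M ∈ Submodule.span ℂ (Set.range S.Bm), ∀ N ∈ Submodule.span ℂ (Set.range S.Bm),
      ∀ r : ℕ, triangle (S.Bm r) M N ∈ S.WStar := by
    intro M hM N hN r
    induction hM using Submodule.span_induction with
    | mem M h =>
      obtain ⟨t, rfl⟩ := h
      exact h3 N hN r t
    | zero =>
      have : triangle (S.Bm r) (0 : Matrix X X ℂ) N = 0 := by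
        funext x y z; simp [triangle]
      rw [this]
      exact Submodule.zero_mem _
    | add M M' _ _ h h' =>
      have : triangle (S.Bm r) (M + M') N =
          triangle (S.Bm r) M N + triangle (S.Bm r) M' N := by
        funext x y z
        simp only [triangle, Matrix.add_apply, Pi.add_apply]; ring
      rw [this]
      exact Submodule.add_mem _ h h'
    | smul c M _ h =>
      have : triangle (S.Bm r) (c • M) N = c • triangle (S.Bm r) M N := by
        funext x y z
        simp only [triangle, Matrix.smul_apply, Pi.smul_apply, smul_eq_mul]; ring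
      rw [this]
      exact Submodule.smul_mem _ _ h
  have h1 : ∀ L ∈ Submodule.span ℂ (Set.range S.Bm), ∀ M ∈ Submodule.span ℂ (Set.range S.Bm),
      ∀ N ∈ Submodule.span ℂ (Set.range S.Bm), triangle L M N ∈ S.WStar := by
    intro L hL M hM N hN
    induction hL using Submodule.span_induction with
    | mem L h =>
      obtain ⟨t, rfl⟩ := h
      exact h2 M hM N hN t
    | zero =>
      have : triangle (0 : Matrix X X ℂ) M N = 0 := by
        funext x y z; simp [triangle]
      rw [this]
      exact Submodule.zero_mem _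
    | add L L' _ _ h h' =>
      have : triangle (L + L') M N = triangle L M N + triangle L' M N := by
        funext x y z
        simp only [triangle, Matrix.add_apply, Pi.add_apply]; ring
      rw [this]
      exact Submodule.add_mem _ h h'
    | smul c L _ h =>
      have : triangle (c • L) M N = c • triangle L M N := by
        funext x y z
        simp only [triangle, Matrix.smul_apply, Pi.smul_apply, smul_eq_mul]; ring
      rw [this]
      exact Submodule.smul_mem _ _ h
  unfold DuallyTriplyRegular WTriangle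
  refine Submodule.span_le.2 ?_
  rintro _ ⟨L, hL, M, hM, N, hN, rfl⟩
  exact h1 L (S.BM_le hL) M (S.BM_le hM) N (S.BM_le hN)


/-! idempotents -/

lemma trace_A (S : SymScheme X d) (i : Fin (d + 1)) :
    (S.A i).trace = if i = 0 then (Fintype.card X : ℂ) else 0 := by
  unfold Matrix.trace
  simp only [Matrix.diag_apply, A_apply]
  have : ∀ x, S.rel x x = 0 := fun x => (S.diag x x).2 rfl
  simp only [this]
  by_cases h : i = 0
  · simp [h]
  · simp [h, Ne.symm h]

lemma card_ne_zero (S : SymScheme X d) : (Fintype.card X : ℂ) ≠ 0 := by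
  obtain ⟨x, _, _⟩ := S.nonempty 0
  have : Nonempty X := ⟨x⟩
  exact_mod_cast Fintype.card_ne_zero

/-- orthogonal nonzero idempotents spanning the Bose-Mesner algebra are its primitive
idempotents -/
lemma isPrimitiveIdempotent_iff (S : SymScheme X d) (e : Fin (d + 1) → Matrix X X ℂ)
    (hmem : ∀ j, e j ∈ S.BM) (hidem : ∀ j, e j * e j = e j) (hne : ∀ j, e j ≠ 0)
    (horth : ∀ i j, i ≠ j → e i * e j = 0) (hspan : S.BM ≤ Submodule.span ℂ (Set.range e))
    (f : Matrix X X ℂ) : S.IsPrimitiveIdempotent f ↔ ∃ j, e j = f := by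
  have hco : ∀ f ∈ S.BM, ∃ c : Fin (d + 1) → ℂ, ∑ j, c j • e j = f := by
    intro f hf
    exact (Submodule.mem_span_range_iff_exists_fun ℂ).1 (hspan hf)
  have hmul : ∀ (c : Fin (d + 1) → ℂ) (i : Fin (d + 1)), e i * (∑ j, c j • e j) = c i • e i := by
    intro c i
    rw [Finset.mul_sum, Finset.sum_eq_single i]
    · rw [Matrix.mul_smul, hidem]
    · intro b _ hb
      rw [Matrix.mul_smul, horth i b (Ne.symm hb), smul_zero]
    · simp
  have hmul2 : ∀ (c : Fin (d + 1) → ℂ) (i : Fin (d + 1)), (∑ j, c j • e j) * e i = c i • e i := by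
    intro c i
    rw [Finset.sum_mul, Finset.sum_eq_single i]
    · rw [Matrix.smul_mul, hidem]
    · intro b _ hb
      rw [Matrix.smul_mul, horth b i hb, smul_zero]
    · simp
  have hc : ∀ (c : Fin (d + 1) → ℂ) (f : Matrix X X ℂ), ∑ j, c j • e j = f → f * f = f →
      ∀ i, c i = 0 ∨ c i = 1 := by
    intro c f hcf hff i
    have h1 : e i * f = c i • e i := by rw [← hcf]; exact hmul c i
    have h2 : e i * (f * f) = (c i * c i) • e i := by
      rw [← Matrix.mul_assoc, h1, Matrix.smul_mul, h1, smul_smul]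
    rw [hff, h1] at h2
    have h3 : (c i - c i * c i) • e i = 0 := by rw [sub_smul, ← h2, sub_self]
    rcases smul_eq_zero.1 h3 with h | h
    · have : c i * (1 - c i) = 0 := by rw [← h]; ring
      rcases mul_eq_zero.1 this with h | h
      · exact Or.inl h
      · exact Or.inr (sub_eq_zero.1 h).symm
    · exact absurd h (hne i)
  constructor
  · rintro ⟨hf, hff, hf0, hprim⟩
    obtain ⟨c, hcf⟩ := hco f hf
    have hex : ∃ i, c i ≠ 0 := by
      by_contra hcon
      push Not at hcon
      apply hf0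
      rw [← hcf]
      simp [hcon]
    obtain ⟨i, hi⟩ := hex
    have hi1 : c i = 1 := (hc c f hcf hff i).resolve_left hi
    have h1 : f * e i = e i := by rw [← hcf, hmul2, hi1, one_smul]
    rcases hprim (e i) (hmem i) (hidem i) h1 with h | h
    · exact absurd h (hne i)
    · exact ⟨i, h⟩
  · rintro ⟨j, rfl⟩
    refine ⟨hmem j, hidem j, hne j, fun f hf hff hef => ?_⟩
    obtain ⟨c, hcf⟩ := hco f hf
    have h1 : e j * f = c j • e j := by rw [← hcf]; exact hmul c j
    rw [hef] at h1
    rcases hc c f hcf hff j with h | h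
    · left; rw [h1, h, zero_smul]
    · right; rw [h1, h, one_smul]

lemma Bm_mul (S : SymScheme X d) (hS : S.Ultra) (bb : ℕ → ℕ)
    (hbb : ∀ s x, ∑ u, S.ind s x u = bb s) (r s : ℕ) (hrs : r ≤ s) :
    S.Bm r * S.Bm s = (bb r : ℂ) • S.Bm s := by
  ext x y
  rw [Matrix.mul_apply, Matrix.smul_apply]
  unfold Bm
  simp only [Matrix.of_apply]
  have : ∀ u, ((S.ind r x u : ℤ) : ℂ) * ((S.ind s u y : ℤ) : ℂ) =
      ((S.ind r x u : ℤ) : ℂ) * ((S.ind s x y : ℤ) : ℂ) := by
    intro u
    rw [← Int.cast_mul, S.ind_symm s u y, S.ind_mul hS hrs, Int.cast_mul]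
  simp only [this]
  rw [← Finset.sum_mul, ← Int.cast_sum, hbb]
  simp

lemma Bm_mul' (S : SymScheme X d) (hS : S.Ultra) (bb : ℕ → ℕ)
    (hbb : ∀ s x, ∑ u, S.ind s x u = bb s) (r s : ℕ) (hrs : r ≤ s) :
    S.Bm s * S.Bm r = (bb r : ℂ) • S.Bm s := by
  have ht : ∀ s, (S.Bm s).transpose = S.Bm s := by
    intro s; ext x y; rw [Matrix.transpose_apply, S.Bm_symm]
  have := congrArg Matrix.transpose (S.Bm_mul hS bb hbb r s hrs)
  rw [Matrix.transpose_mul, ht, ht, Matrix.transpose_smul, ht] at this
  exact this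

/-- the partial sums of the primitive idempotents -/
noncomputable def G (S : SymScheme X d) (bb : ℕ → ℕ) (t : ℕ) : Matrix X X ℂ :=
  if t = 0 then 0 else ((bb (d + 2 - t) : ℂ))⁻¹ • S.Bm (d + 2 - t)

lemma G_mul (S : SymScheme X d) (hS : S.Ultra) (bb : ℕ → ℕ)
    (hbb : ∀ s x, ∑ u, S.ind s x u = bb s) (hpos : ∀ s, 1 ≤ s → 0 < bb s) {s t : ℕ} (hst : s ≤ t)
    (ht : t ≤ d + 1) : S.G bb s * S.G bb t = S.G bb s ∧ S.G bb t * S.G bb s = S.G bb s := by
  unfold G
  by_cases hs : s = 0
  · simp [hs]
  · have ht0 : t ≠ 0 := by omega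
    simp only [hs, ht0, if_false]
    have h1 : (bb (d + 2 - s) : ℂ) ≠ 0 := by
      exact_mod_cast (hpos _ (by omega)).ne'
    have h2 : (bb (d + 2 - t) : ℂ) ≠ 0 := by
      exact_mod_cast (hpos _ (by omega)).ne'
    constructor
    · rw [Matrix.smul_mul, Matrix.mul_smul, S.Bm_mul' hS bb hbb (d + 2 - t) (d + 2 - s) (by omega),
        smul_smul (bb (d + 2 - t) : ℂ)⁻¹, inv_mul_cancel₀ h2, one_smul]
    · rw [Matrix.smul_mul, Matrix.mul_smul, S.Bm_mul hS bb hbb (d + 2 - t) (d + 2 - s) (by omega)]
      rw [smul_smul, smul_smul, mul_assoc, mul_comm _ ((bb (d + 2 - t) : ℕ) : ℂ), ← mul_assoc,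
        inv_mul_cancel₀ h2, one_mul]

lemma trace_Bm (S : SymScheme X d) {s : ℕ} (hs : 1 ≤ s) :
    (S.Bm s).trace = (Fintype.card X : ℂ) := by
  unfold Matrix.trace
  simp only [Matrix.diag_apply, Bm_apply]
  have : ∀ x, S.rel x x = 0 := fun x => (S.diag x x).2 rfl
  simp only [this, Fin.val_zero]
  simp [show 0 < s by omega]

lemma Bm_top (S : SymScheme X d) : S.Bm (d + 1) = Matrix.of (fun _ _ => (1 : ℂ)) := by
  ext x y
  rw [Bm_apply, if_pos (S.rel x y).is_lt]
  rfl

lemma Bm_one (S : SymScheme X d) : S.Bm 1 = 1 := by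
  ext x y
  rw [Bm_apply, Matrix.one_apply]
  have : (S.rel x y).val < 1 ↔ x = y := by
    rw [← S.diag x y, Nat.lt_one_iff]
    exact Fin.val_eq_zero_iff
  simp only [this]


/-- the primitive idempotents -/
noncomputable def EE (S : SymScheme X d) (bb : ℕ → ℕ) (j : Fin (d + 1)) : Matrix X X ℂ :=
  S.G bb (j.val + 1) - S.G bb j.val

/-- the numerical data of an ultrametric scheme -/
structure Data (S : SymScheme X d) (bb : ℕ → ℕ) : Prop where
  ultra : S.Ultra
  sum : ∀ s x, ∑ u, S.ind s x u = bb s
  zero : bb 0 = 0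
  one : bb 1 = 1
  two : ∀ s, 1 ≤ s → s ≤ d → 2 * bb s ≤ bb (s + 1)
  top : bb (d + 1) = Fintype.card X

variable {S : SymScheme X d} {bb : ℕ → ℕ}

/-- positivity up to `d + 1` -/
lemma Data.pos (D : Data S bb) {s : ℕ} (h1 : 1 ≤ s) (h2 : s ≤ d + 1) : 0 < bb s := by
  induction s with
  | zero => omega
  | succ s ih =>
    rcases Nat.eq_zero_or_pos s with h | h
    · subst h
      rw [D.one]; exact Nat.one_pos
    · have := D.two s h (by omega)
      have := ih h (by omega)
      omega

lemma Data.G_mul (D : Data S bb) {s t : ℕ} (hst : s ≤ t)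
    (ht : t ≤ d + 1) : S.G bb s * S.G bb t = S.G bb s ∧ S.G bb t * S.G bb s = S.G bb s := by
  unfold G
  by_cases hs : s = 0
  · simp [hs]
  · have ht0 : t ≠ 0 := by omega
    simp only [hs, ht0, if_false]
    have h2 : (bb (d + 2 - t) : ℂ) ≠ 0 := by
      exact_mod_cast (D.pos (show 1 ≤ d + 2 - t by omega) (by omega)).ne'
    constructor
    · rw [Matrix.smul_mul, Matrix.mul_smul,
        S.Bm_mul' D.ultra bb D.sum (d + 2 - t) (d + 2 - s) (by omega),
        smul_smul (bb (d + 2 - t) : ℂ)⁻¹, inv_mul_cancel₀ h2, one_smul]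
    · rw [Matrix.smul_mul, Matrix.mul_smul,
        S.Bm_mul D.ultra bb D.sum (d + 2 - t) (d + 2 - s) (by omega)]
      rw [smul_smul, smul_smul, mul_assoc, mul_comm _ ((bb (d + 2 - t) : ℕ) : ℂ), ← mul_assoc,
        inv_mul_cancel₀ h2, one_mul]

lemma Data.EE_idem (D : Data S bb) (j : Fin (d + 1)) : S.EE bb j * S.EE bb j = S.EE bb j := by
  have hj := j.is_lt
  unfold EE
  rw [Matrix.mul_sub, Matrix.sub_mul, Matrix.sub_mul, (D.G_mul (le_refl (j.val + 1)) (by omega)).1,
    (D.G_mul (le_refl j.val) (by omega)).1,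
    (D.G_mul (show j.val ≤ j.val + 1 by omega) (by omega)).1,
    (D.G_mul (show j.val ≤ j.val + 1 by omega) (by omega)).2]
  abel

lemma Data.EE_orth_aux (D : Data S bb) (i j : Fin (d + 1)) (hij : i < j) :
    S.EE bb i * S.EE bb j = 0 ∧ S.EE bb j * S.EE bb i = 0 := by
  have hj := j.is_lt
  have hij' : i.val < j.val := hij
  unfold EE
  constructor
  · rw [Matrix.mul_sub, Matrix.sub_mul, Matrix.sub_mul,
      (D.G_mul (show i.val + 1 ≤ j.val + 1 by omega) (by omega)).1,
      (D.G_mul (show i.val ≤ j.val + 1 by omega) (by omega)).1,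
      (D.G_mul (show i.val + 1 ≤ j.val by omega) (by omega)).1,
      (D.G_mul (show i.val ≤ j.val by omega) (by omega)).1]
    abel
  · rw [Matrix.mul_sub, Matrix.sub_mul, Matrix.sub_mul,
      (D.G_mul (show i.val + 1 ≤ j.val + 1 by omega) (by omega)).2,
      (D.G_mul (show i.val ≤ j.val + 1 by omega) (by omega)).2,
      (D.G_mul (show i.val + 1 ≤ j.val by omega) (by omega)).2,
      (D.G_mul (show i.val ≤ j.val by omega) (by omega)).2]
    abel

lemma Data.EE_orth (D : Data S bb) (i j : Fin (d + 1)) (hij : i ≠ j) :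
    S.EE bb i * S.EE bb j = 0 := by
  rcases lt_or_gt_of_ne hij with h | h
  · exact (D.EE_orth_aux i j h).1
  · exact (D.EE_orth_aux j i h).2

lemma G_eq_sum (S : SymScheme X d) (bb : ℕ → ℕ) (t : ℕ) (ht : t ≤ d + 1) :
    S.G bb t = ∑ j : Fin (d + 1), (if j.val < t then (1 : ℂ) else 0) • S.EE bb j := by
  induction t with
  | zero => simp [G]
  | succ t ih =>
    have h1 : S.G bb (t + 1) = S.G bb t + S.EE bb ⟨t, by omega⟩ := by
      unfold EE; simp
    rw [h1, ih (by omega)]
    have h2 : ∀ j : Fin (d + 1), (if j.val < t + 1 then (1 : ℂ) else 0) • S.EE bb j =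
        (if j.val < t then (1 : ℂ) else 0) • S.EE bb j +
          if j = ⟨t, by omega⟩ then S.EE bb j else 0 := by
      intro j
      by_cases hj : j.val < t
      · have : j ≠ ⟨t, by omega⟩ := by
          intro h; rw [h] at hj; simp at hj
        simp [hj, this, show j.val < t + 1 by omega]
      · by_cases hj2 : j.val = t
        · have : j = ⟨t, by omega⟩ := Fin.ext hj2
          simp [this]
        · have : j ≠ ⟨t, by omega⟩ := by
            intro h; rw [h] at hj2; simp at hj2
          simp [hj, this, show ¬ j.val < t + 1 by omega]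
    simp only [h2]
    rw [Finset.sum_add_distrib]
    simp

lemma Data.Bm_eq (D : Data S bb) {s : ℕ} (hs : s ≤ d + 1) :
    S.Bm s = (bb s : ℂ) • S.G bb (d + 2 - s) := by
  rcases Nat.eq_zero_or_pos s with h | h
  · subst h
    rw [D.zero]
    simp only [Nat.cast_zero, zero_smul]
    ext x y
    rw [Bm_apply]
    simp
  · unfold G
    have h1 : d + 2 - s ≠ 0 := by omega
    have h2 : d + 2 - (d + 2 - s) = s := by omega
    rw [if_neg h1, h2, smul_smul, mul_inv_cancel₀, one_smul]
    exact_mod_cast (D.pos h hs).ne'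

lemma Bm_of_ge (S : SymScheme X d) {s : ℕ} (hs : d + 1 ≤ s) : S.Bm s = S.Bm (d + 1) := by
  ext x y
  rw [Bm_apply, Bm_apply, if_pos (S.rel x y).is_lt, if_pos (lt_of_lt_of_le (S.rel x y).is_lt hs)]

lemma Data.EE_mem (j : Fin (d + 1)) : S.EE bb j ∈ S.BM := by
  have : ∀ t, S.G bb t ∈ S.BM := by
    intro t
    unfold G
    split_ifs
    · exact Submodule.zero_mem _
    · exact Submodule.smul_mem _ _ (S.Bm_mem _)
  exact Submodule.sub_mem _ (this _) (this _)

lemma Data.span (D : Data S bb) : S.BM ≤ Submodule.span ℂ (Set.range (S.EE bb)) := by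
  refine le_trans S.BM_le (Submodule.span_le.2 ?_)
  rintro _ ⟨s, rfl⟩
  rw [SetLike.mem_coe]
  have key : ∀ s, s ≤ d + 1 → S.Bm s ∈ Submodule.span ℂ (Set.range (S.EE bb)) := by
    intro s hs
    rcases Nat.eq_zero_or_pos s with h | h
    · rw [D.Bm_eq hs, h, D.zero]; simp
    · rw [D.Bm_eq hs, G_eq_sum S bb _ (by omega)]
      refine Submodule.smul_mem _ _ (Submodule.sum_mem _ fun j _ => Submodule.smul_mem _ _ ?_)
      exact Submodule.subset_span ⟨j, rfl⟩
  by_cases hs : s ≤ d + 1
  · exact key s hs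
  · rw [S.Bm_of_ge (by omega)]
    exact key _ le_rfl

/-- traces of the partial sums -/
noncomputable def cc (X : Type) [Fintype X] (d : ℕ) (bb : ℕ → ℕ) (t : ℕ) : ℚ :=
  if t = 0 then 0 else (Fintype.card X : ℚ) / bb (d + 2 - t)

lemma Data.trace_G {t : ℕ} (ht : t ≤ d + 1) :
    (S.G bb t).trace = ((cc X d bb t : ℚ) : ℂ) := by
  unfold G cc
  split_ifs with h
  · simp
  · rw [Matrix.trace_smul, S.trace_Bm (by omega)]
    push_cast
    rw [smul_eq_mul, mul_comm, div_eq_mul_inv]

lemma Data.trace_EE (j : Fin (d + 1)) :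
    (S.EE bb j).trace = ((cc X d bb (j.val + 1) - cc X d bb j.val : ℚ) : ℂ) := by
  have hj := j.is_lt
  unfold EE
  rw [Matrix.trace_sub, Data.trace_G (by omega), Data.trace_G (by omega), Rat.cast_sub]

lemma Data.card_pos (D : Data S bb) : 0 < Fintype.card X := by
  rw [← D.top]; exact D.pos (by omega) (by omega)

lemma Data.cc_pos (D : Data S bb) {t : ℕ} (h1 : 1 ≤ t) (ht : t ≤ d + 1) : 0 < cc X d bb t := by
  unfold cc
  rw [if_neg (by omega)]
  have := D.card_pos
  have := D.pos (show 1 ≤ d + 2 - t by omega) (by omega)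
  positivity

lemma Data.cc_two (D : Data S bb) {t : ℕ} (h1 : 1 ≤ t) (ht : t ≤ d) :
    2 * cc X d bb t ≤ cc X d bb (t + 1) := by
  unfold cc
  rw [if_neg (by omega), if_neg (by omega)]
  have h0 := D.card_pos
  have hp1 := D.pos (show 1 ≤ d + 2 - t by omega) (by omega)
  have hp2 := D.pos (show 1 ≤ d + 2 - (t + 1) by omega) (by omega)
  have h2 := D.two (d + 2 - (t + 1)) (by omega) (by omega)
  rw [show d + 2 - (t + 1) + 1 = d + 2 - t by omega] at h2
  have h2' : (2 : ℚ) * (bb (d + 2 - (t + 1)) : ℚ) ≤ (bb (d + 2 - t) : ℚ) := by exact_mod_cast h2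
  have hp1' : (0 : ℚ) < (bb (d + 2 - t) : ℚ) := by exact_mod_cast hp1
  have hp2' : (0 : ℚ) < (bb (d + 2 - (t + 1)) : ℚ) := by exact_mod_cast hp2
  have h0' : (0 : ℚ) < (Fintype.card X : ℚ) := by exact_mod_cast h0
  rw [← mul_div_assoc, div_le_div_iff₀ hp1' hp2']
  nlinarith

lemma Data.EE_ne (D : Data S bb) (j : Fin (d + 1)) : S.EE bb j ≠ 0 := by
  intro h
  have h1 := Data.trace_EE (S := S) (bb := bb) j
  rw [h, Matrix.trace_zero] at h1
  have h2 : cc X d bb (j.val + 1) - cc X d bb j.val = 0 := by exact_mod_cast h1.symm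
  have hj := j.is_lt
  rcases Nat.eq_zero_or_pos j.val with h0 | h0
  · rw [h0] at h2
    have h3 := D.cc_pos (le_refl 1) (by omega)
    have h4 : cc X d bb 0 = 0 := by simp [cc]
    rw [h4] at h2
    simp at h2
    rw [h2] at h3
    exact lt_irrefl _ h3
  · have h3 := D.cc_two h0 (by omega)
    have h4 := D.cc_pos h0 (by omega)
    linarith

lemma Data.prim (D : Data S bb) (f : Matrix X X ℂ) :
    S.IsPrimitiveIdempotent f ↔ ∃ j, S.EE bb j = f :=
  S.isPrimitiveIdempotent_iff (S.EE bb) Data.EE_mem D.EE_idem D.EE_ne D.EE_orth D.span f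

lemma Data.EE_inj (D : Data S bb) : Function.Injective (S.EE bb) := by
  intro i j h
  by_contra hij
  have h1 := D.EE_orth i j hij
  rw [← h, D.EE_idem] at h1
  exact D.EE_ne i h1

lemma Data.sum_EE (D : Data S bb) : ∑ j, S.EE bb j = 1 := by
  have h := G_eq_sum S bb (d + 1) le_rfl
  have h2 : ∀ j : Fin (d + 1), (if j.val < d + 1 then (1 : ℂ) else 0) • S.EE bb j = S.EE bb j := by
    intro j
    rw [if_pos j.is_lt, one_smul]
  simp only [h2] at h
  rw [← h]
  unfold G
  rw [if_neg (by omega), show d + 2 - (d + 1) = 1 by omega, D.one, S.Bm_one]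
  simp

lemma Data.EE_zero (D : Data S bb) :
    S.EE bb 0 = (Fintype.card X : ℂ)⁻¹ • Matrix.of (fun _ _ => (1 : ℂ)) := by
  unfold EE G
  simp only [Fin.val_zero, zero_add]
  rw [if_neg (by omega), show d + 2 - 1 = d + 1 by omega, D.top, S.Bm_top]
  simp


/-- valencies -/
lemma Data.A_mul_EE_zero (D : Data S bb) (i : Fin (d + 1)) :
    S.A i * S.EE bb 0 = (((bb (i.val + 1) : ℚ) - (bb i.val : ℚ) : ℚ) : ℂ) • S.EE bb 0 := by
  have hi := i.is_lt
  rw [D.EE_zero, ← S.Bm_top, Matrix.mul_smul, A_eq_sub, Matrix.sub_mul,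
    S.Bm_mul D.ultra bb D.sum (i.val + 1) (d + 1) (by omega),
    S.Bm_mul D.ultra bb D.sum i.val (d + 1) (by omega), ← sub_smul, smul_comm]
  push_cast
  rfl

lemma Data.k_mono (D : Data S bb) :
    Monotone (fun i : Fin (d + 1) => (bb (i.val + 1) : ℚ) - (bb i.val : ℚ)) := by
  refine Fin.monotone_iff_le_succ.2 fun i => ?_
  have hi := i.is_lt
  simp only [Fin.val_castSucc, Fin.val_succ]
  have h2 := D.two (i.val + 1) (by omega) (by omega)
  have h2' : (2 : ℚ) * (bb (i.val + 1) : ℚ) ≤ (bb (i.val + 1 + 1) : ℚ) := by exact_mod_cast h2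
  have : (0 : ℚ) ≤ (bb i.val : ℚ) := by positivity
  linarith

lemma Data.m_mono (D : Data S bb) :
    Monotone (fun i : Fin (d + 1) => cc X d bb (i.val + 1) - cc X d bb i.val) := by
  refine Fin.monotone_iff_le_succ.2 fun i => ?_
  have hi := i.is_lt
  simp only [Fin.val_castSucc, Fin.val_succ]
  have h2 := D.cc_two (t := i.val + 1) (by omega) (by omega)
  have : 0 ≤ cc X d bb i.val := by
    rcases Nat.eq_zero_or_pos i.val with h | h
    · rw [h]; simp [cc]
    · exact (D.cc_pos h (by omega)).le
  linarith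

lemma Data.eq_of_fsd (D : Data S bb) (h : S.FormallySelfDual) (i : Fin (d + 1)) :
    cc X d bb (i.val + 1) - cc X d bb i.val = (bb (i.val + 1) : ℚ) - (bb i.val : ℚ) := by
  obtain ⟨σ, E, P, Q, hinj, hprim, hE0, hA, hEQ, hPQ⟩ := h
  subst hPQ
  -- the bijection between the two labellings of the primitive idempotents
  have hex : ∀ j, ∃ i, E i = S.EE bb j := fun j => (hprim _).1 ((D.prim _).2 ⟨j, rfl⟩)
  choose π hπ using hex
  have hπinj : Function.Injective π := by
    intro a b hab
    apply D.EE_inj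
    rw [← hπ, ← hπ, hab]
  have hπbij : Function.Bijective π := Finite.injective_iff_bijective.1 hπinj
  have hπ0 : π 0 = 0 := by
    apply hinj
    rw [hπ, hE0, D.EE_zero]
  -- orthogonality
  have horth : ∀ i, i ≠ 0 → E i * E 0 = 0 := by
    intro i hi
    obtain ⟨a, rfl⟩ := hπbij.2 i
    have ha : a ≠ 0 := by
      rintro rfl
      exact hi hπ0
    rw [← hπ0, hπ, hπ]
    exact D.EE_orth a 0 ha
  have hsum : ∑ j, E j = 1 := by
    rw [← D.sum_EE, ← Function.Bijective.sum_comp hπbij E]
    exact Finset.sum_congr rfl fun j _ => hπ j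
  have hcard := S.card_ne_zero
  -- P j 0 = 1
  have hPj0 : ∀ j, P j 0 = 1 := by
    intro j
    obtain ⟨x, y, hxy⟩ := S.nonempty (σ j)
    have h1 := hEQ 0
    rw [hE0] at h1
    have h2 := congrFun (congrFun h1 x) y
    rw [Matrix.smul_apply, Matrix.smul_apply, Matrix.of_apply, Matrix.sum_apply,
      Finset.sum_eq_single j] at h2
    · rw [Matrix.smul_apply, A_apply, if_pos hxy] at h2
      simp only [smul_eq_mul, mul_one] at h2
      have h3 : (Fintype.card X : ℂ)⁻¹ * 1 = (Fintype.card X : ℂ)⁻¹ * P j 0 := by rw [mul_one, ← h2]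
      exact (mul_left_cancel₀ (inv_ne_zero hcard) h3).symm
    · intro b _ hb
      rw [Matrix.smul_apply, A_apply, if_neg, smul_zero]
      rw [hxy]
      exact fun h => hb (σ.injective h).symm
    · simp
  have hσ0 : σ 0 = 0 := by
    have h1 := hA 0
    simp only [hPj0, one_smul] at h1
    rw [hsum] at h1
    obtain ⟨x, _, _⟩ := S.nonempty 0
    have h2 := congrFun (congrFun h1 x) x
    rw [A_apply, Matrix.one_apply_eq] at h2
    by_contra hne
    rw [(S.diag x x).2 rfl, if_neg (Ne.symm hne)] at h2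
    exact zero_ne_one h2
  have htr : ∀ i, (E i).trace = P 0 i := by
    intro i
    rw [hEQ i, Matrix.trace_smul, Matrix.trace_sum, Finset.sum_eq_single 0]
    · rw [Matrix.trace_smul, hσ0, trace_A, if_pos rfl, smul_eq_mul, smul_eq_mul, mul_comm (P 0 i),
        ← mul_assoc, inv_mul_cancel₀ hcard, one_mul]
    · intro b _ hb
      rw [Matrix.trace_smul, trace_A, if_neg, smul_zero]
      rw [← hσ0]
      exact fun h => hb (σ.injective h)
    · simp
  have hP0 : ∀ i, P 0 i = (((bb ((σ i).val + 1) : ℚ) - (bb (σ i).val : ℚ) : ℚ) : ℂ) := by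
    intro i
    have hE0' : E 0 = S.EE bb 0 := by rw [hE0, D.EE_zero]
    have h1 : S.A (σ i) * E 0 = P 0 i • E 0 := by
      rw [hA i, Finset.sum_mul, Finset.sum_eq_single 0]
      · rw [Matrix.smul_mul, hE0', D.EE_idem]
      · intro b _ hb
        rw [Matrix.smul_mul, horth b hb, smul_zero]
      · simp
    rw [hE0', D.A_mul_EE_zero, ← sub_eq_zero, ← sub_smul, smul_eq_zero] at h1
    rcases h1 with h1 | h1
    · exact (sub_eq_zero.1 h1).symm
    · exact absurd h1 (D.EE_ne 0)
  -- comparing the two sorted sequences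
  have hcomp : (fun i : Fin (d + 1) => (bb (i.val + 1) : ℚ) - (bb i.val : ℚ)) ∘
      ((Equiv.ofBijective π hπbij).trans σ) =
      fun i : Fin (d + 1) => cc X d bb (i.val + 1) - cc X d bb i.val := by
    funext j
    have h1 := Data.trace_EE (S := S) (bb := bb) j
    rw [← hπ j, htr, hP0] at h1
    have h2 := Rat.cast_injective h1
    exact h2
  have hm := D.m_mono
  rw [← hcomp] at hm
  have hu := Tuple.unique_monotone (f := fun i : Fin (d + 1) =>
    (bb (i.val + 1) : ℚ) - (bb i.val : ℚ)) (σ := (Equiv.ofBijective π hπbij).trans σ)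
    (τ := Equiv.refl _) hm (by simpa using D.k_mono)
  rw [hcomp] at hu
  exact congrFun hu i

theorem Data.forward (D : Data S bb) (h : S.FormallySelfDual) (s : ℕ) (hs : s ≤ d) :
    bb (s + 1) * bb (d + 1 - s) = Fintype.card X := by
  have key : ∀ t, t ≤ d + 1 → cc X d bb t = bb t := by
    intro t
    induction t with
    | zero => intro _; rw [D.zero]; simp [cc]
    | succ t ih =>
      intro ht
      have h1 := D.eq_of_fsd h ⟨t, by omega⟩
      have h2 := ih (by omega)
      simp only at h1
      linarith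
  have h1 := key (s + 1) (by omega)
  unfold cc at h1
  rw [if_neg (by omega), show d + 2 - (s + 1) = d + 1 - s by omega] at h1
  have hp : (0 : ℚ) < (bb (d + 1 - s) : ℚ) := by
    exact_mod_cast D.pos (show 1 ≤ d + 1 - s by omega) (by omega)
  rw [div_eq_iff hp.ne'] at h1
  exact_mod_cast h1.symm

theorem Data.backward (D : Data S bb)
    (h : ∀ s ≤ d, bb (s + 1) * bb (d + 1 - s) = Fintype.card X) : S.FormallySelfDual := by
  have hcard := S.card_ne_zero
  have hG : ∀ t, t ≤ d + 1 → S.G bb t =
      (Fintype.card X : ℂ)⁻¹ • ((bb t : ℂ) • S.Bm (d + 2 - t)) := by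
    intro t ht
    unfold G
    split_ifs with h0
    · rw [h0, D.zero]; simp
    · rw [smul_smul]
      congr 1
      have h1 := h (t - 1) (by omega)
      rw [show t - 1 + 1 = t by omega, show d + 1 - (t - 1) = d + 2 - t by omega] at h1
      have h2 : (bb t : ℂ) * (bb (d + 2 - t) : ℂ) = (Fintype.card X : ℂ) := by exact_mod_cast h1
      have hp : (bb (d + 2 - t) : ℂ) ≠ 0 := by
        exact_mod_cast (D.pos (show 1 ≤ d + 2 - t by omega) (by omega)).ne'
      rw [← h2] at hcard ⊢
      have hp2 : (bb t : ℂ) ≠ 0 := left_ne_zero_of_mul hcard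
      rw [mul_inv, mul_comm (bb t : ℂ)⁻¹, mul_assoc, inv_mul_cancel₀ hp2, mul_one]
  let P : Matrix (Fin (d + 1)) (Fin (d + 1)) ℂ := fun j i =>
    (bb (i.val + 1) : ℂ) * (if j.val < d + 1 - i.val then 1 else 0) -
      (bb i.val : ℂ) * (if j.val < d + 2 - i.val then 1 else 0)
  refine ⟨Equiv.refl _, S.EE bb, P, P, D.EE_inj, D.prim, D.EE_zero, fun i => ?_, fun i => ?_, rfl⟩
  · have hi := i.is_lt
    have h0 : ∑ j, P j i • S.EE bb j = (bb (i.val + 1) : ℂ) • S.G bb (d + 1 - i.val) -
        (bb i.val : ℂ) • S.G bb (d + 2 - i.val) := by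
      rw [G_eq_sum S bb (d + 1 - i.val) (by omega)]
      rcases Nat.eq_zero_or_pos i.val with hi0 | hi0
      · rw [hi0, D.zero]
        simp only [Nat.cast_zero, zero_smul, sub_zero]
        rw [Finset.smul_sum]
        refine Finset.sum_congr rfl fun j _ => ?_
        simp only [P, hi0, D.zero]
        rw [smul_smul]
        simp
      · rw [G_eq_sum S bb (d + 2 - i.val) (by omega), Finset.smul_sum, Finset.smul_sum,
          ← Finset.sum_sub_distrib]
        refine Finset.sum_congr rfl fun j _ => ?_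
        simp only [P]
        rw [smul_smul, smul_smul, ← sub_smul]
    rw [h0, Equiv.refl_apply, A_eq_sub, D.Bm_eq (by omega), D.Bm_eq (by omega),
      show d + 2 - (i.val + 1) = d + 1 - i.val by omega]
  · have hi := i.is_lt
    have h0 : ∑ j, P j i • S.A (Equiv.refl _ j) = (bb (i.val + 1) : ℂ) • S.Bm (d + 1 - i.val) -
        (bb i.val : ℂ) • S.Bm (d + 2 - i.val) := by
      rw [S.Bm_eq_sum (d + 1 - i.val), S.Bm_eq_sum (d + 2 - i.val), Finset.smul_sum,
        Finset.smul_sum, ← Finset.sum_sub_distrib]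
      refine Finset.sum_congr rfl fun j _ => ?_
      simp only [P]
      rw [smul_smul, smul_smul, ← sub_smul]
      rfl
    rw [h0, smul_sub]
    unfold EE
    rw [hG _ (by omega), hG _ (by omega), show d + 2 - (i.val + 1) = d + 1 - i.val by omega]

end SymScheme

/-! the scheme of a spherically homogeneous rooted tree -/

omit [DecidableEq X] in
lemma regular_raw (rel : X → X → Fin (d + 1)) (hsymm : ∀ x y, rel x y = rel y x)
    (hultra : ∀ x y z, rel x z ≤ max (rel x y) (rel y z))
    (hball : ∀ (s : ℕ) (x x' : X), (univ.filter fun u => (rel x u).val < s).card =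
      (univ.filter fun u => (rel x' u).val < s).card) (i j k : Fin (d + 1)) :
    ∃ p : ℕ, ∀ x y, rel x y = k →
      (univ.filter fun z => rel x z = i ∧ rel z y = j).card = p := by
  by_cases hk : ∃ x y, rel x y = k
  swap
  · exact ⟨0, fun x y h => absurd ⟨x, y, h⟩ hk⟩
  obtain ⟨x', y', hxy'⟩ := hk
  refine ⟨(univ.filter fun z => rel x' z = i ∧ rel z y' = j).card, fun x y hxy => ?_⟩
  let ind : ℕ → X → X → ℤ := fun s x y => if (rel x y).val < s then 1 else 0
  have ind_symm : ∀ s x y, ind s x y = ind s y x := fun s x y => by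
    simp only [ind]; rw [hsymm]
  have lt_iff : ∀ {r s : ℕ} (_ : r ≤ s) {x y u : X} (_ : (rel x u).val < r),
      ((rel y u).val < s ↔ (rel x y).val < s) := by
    intro r s hrs x y u h
    have h1 := hultra y x u
    have h2 := hultra x u y
    rw [Fin.le_def] at h1 h2
    rw [hsymm y x] at h1
    rw [hsymm u y] at h2
    simp only [Fin.coe_max] at h1 h2
    exact ⟨fun h3 => lt_of_le_of_lt h2 (max_lt (lt_of_lt_of_le h hrs) h3),
      fun h3 => lt_of_le_of_lt h1 (max_lt h3 (lt_of_lt_of_le h hrs))⟩
  have hsum : ∀ (r s : ℕ) (_ : r ≤ s) (x y : X), ∑ u, ind r x u * ind s y u =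
      (∑ u, ind r x u) * ind s x y := by
    intro r s hrs x y
    rw [Finset.sum_mul]
    refine Finset.sum_congr rfl fun u _ => ?_
    simp only [ind]
    by_cases h : (rel x u).val < r
    · simp only [h, if_true, one_mul, lt_iff hrs h]
    · simp only [h, if_false, zero_mul]
  have hb : ∀ r x x', ∑ u, ind r x u = ∑ u, ind r x' u := by
    intro r x x'
    have := hball r x x'
    simp only [ind]
    rw [Finset.card_filter, Finset.card_filter] at this
    exact_mod_cast this
  have hcong : ∀ r s, ∑ u, ind r x u * ind s y u = ∑ u, ind r x' u * ind s y' u := by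
    intro r s
    have e : ∀ s, ind s x y = ind s x' y' := fun s => by simp only [ind]; rw [hxy, hxy']
    rcases le_total r s with h | h
    · rw [hsum r s h, hsum r s h, hb r x x', e]
    · have c : ∀ x y, ∑ u, ind r x u * ind s y u = (∑ u, ind s y u) * ind r x y := by
        intro x y
        rw [ind_symm r x y, ← hsum s r h]
        exact Finset.sum_congr rfl fun u _ => by ring
      rw [c, c, hb s y y', e]
  have isub : ∀ (i : Fin (d + 1)) (x y : X), (if rel x y = i then (1 : ℤ) else 0) =
      ind (i.val + 1) x y - ind i.val x y := by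
    intro i x y
    simp only [ind]
    have : rel x y = i ↔ (rel x y).val = i.val := Fin.ext_iff
    by_cases h : (rel x y).val = i.val
    · simp [this, h]
    · by_cases h2 : (rel x y).val < i.val
      · have h3 : (rel x y).val < i.val + 1 := by omega
        simp only [this, h, h2, h3, if_true, if_false]; norm_num
      · have h3 : ¬ (rel x y).val < i.val + 1 := by omega
        simp only [this, h, h2, h3, if_false]; norm_num
  have key : ∀ x y, (((univ.filter fun u => rel x u = i ∧ rel u y = j).card : ℕ) : ℤ) =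
      (∑ u, ind (i.val + 1) x u * ind (j.val + 1) y u) - (∑ u, ind (i.val + 1) x u * ind j.val y u)
      - (∑ u, ind i.val x u * ind (j.val + 1) y u) + (∑ u, ind i.val x u * ind j.val y u) := by
    intro x y
    rw [Finset.card_filter]
    push_cast
    simp only [← Finset.sum_sub_distrib, ← Finset.sum_add_distrib]
    refine Finset.sum_congr rfl fun u _ => ?_
    have h1 := isub i x u
    have h2 := isub j y u
    rw [hsymm u y]
    have h3 : ind (i.val + 1) x u * ind (j.val + 1) y u - ind (i.val + 1) x u * ind j.val y u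
      - ind i.val x u * ind (j.val + 1) y u + ind i.val x u * ind j.val y u =
      (ind (i.val + 1) x u - ind i.val x u) * (ind (j.val + 1) y u - ind j.val y u) := by ring
    rw [h3, ← h1, ← h2]
    by_cases h1 : rel x u = i <;> by_cases h2 : rel y u = j <;> simp [h1, h2]
  have : (((univ.filter fun u => rel x u = i ∧ rel u y = j).card : ℕ) : ℤ) =
      (((univ.filter fun u => rel x' u = i ∧ rel u y' = j).card : ℕ) : ℤ) := by
    rw [key, key]
    simp only [hcong]
  exact_mod_cast this

/-- `x` and `y` agree in all coordinates except possibly the last `s` ones -/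
def Agree {n : Fin d → ℕ} (s : ℕ) (x y : (i : Fin d) → Fin (n i)) : Prop :=
  ∀ i : Fin d, i.val + s < d → x i = y i

instance {n : Fin d → ℕ} (s : ℕ) (x y : (i : Fin d) → Fin (n i)) : Decidable (Agree s x y) := by
  unfold Agree; infer_instance

lemma agree_top {n : Fin d → ℕ} (x y : (i : Fin d) → Fin (n i)) : Agree d x y := by
  intro i h; omega

lemma Agree.mono {n : Fin d → ℕ} {s t : ℕ} (hst : s ≤ t) {x y : (i : Fin d) → Fin (n i)}
    (h : Agree s x y) : Agree t x y := fun i hi => h i (by omega)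

/-- the depth function -/
def depth {n : Fin d → ℕ} (x y : (i : Fin d) → Fin (n i)) : ℕ :=
  Nat.find (p := fun s => Agree s x y) ⟨d, agree_top x y⟩

lemma depth_le_iff {n : Fin d → ℕ} (x y : (i : Fin d) → Fin (n i)) (s : ℕ) :
    depth x y ≤ s ↔ Agree s x y := by
  unfold depth
  rw [Nat.find_le_iff]
  exact ⟨fun ⟨m, hm, h⟩ => h.mono hm, fun h => ⟨s, le_rfl, h⟩⟩

lemma depth_lt {n : Fin d → ℕ} (x y : (i : Fin d) → Fin (n i)) : depth x y < d + 1 :=
  Nat.lt_succ_of_le ((depth_le_iff x y d).2 (agree_top x y))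

lemma depth_symm {n : Fin d → ℕ} (x y : (i : Fin d) → Fin (n i)) : depth x y = depth y x := by
  apply le_antisymm
  · rw [depth_le_iff]
    have := (depth_le_iff y x _).1 le_rfl
    exact fun i hi => (this i hi).symm
  · rw [depth_le_iff]
    have := (depth_le_iff x y _).1 le_rfl
    exact fun i hi => (this i hi).symm

lemma depth_ultra {n : Fin d → ℕ} (x y z : (i : Fin d) → Fin (n i)) :
    depth x z ≤ max (depth x y) (depth y z) := by
  rw [depth_le_iff]
  intro i hi
  have h1 := (depth_le_iff x y _).1 (le_max_left (depth x y) (depth y z)) i hi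
  have h2 := (depth_le_iff y z _).1 (le_max_right (depth x y) (depth y z)) i hi
  rw [h1, h2]

lemma card_agree {n : Fin d → ℕ} (s : ℕ) (x : (i : Fin d) → Fin (n i)) :
    (univ.filter fun u => Agree s x u).card = ∏ i : Fin d, if i.val + s < d then 1 else n i := by
  have : (univ.filter fun u => Agree s x u) =
      Fintype.piFinset (fun i : Fin d => if i.val + s < d then {x i} else univ) := by
    ext u
    rw [mem_filter, Fintype.mem_piFinset]
    simp only [mem_univ, true_and]
    unfold Agree
    refine forall_congr' fun i => ?_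
    by_cases h : i.val + s < d
    · simp [h, eq_comm]
    · simp [h]
  rw [this, Fintype.card_piFinset]
  refine Finset.prod_congr rfl fun i _ => ?_
  split_ifs <;> simp

/-- ball sizes -/
def ball (n : Fin d → ℕ) (s : ℕ) : ℕ :=
  if s = 0 then 0 else ∏ i : Fin d, if i.val + (s - 1) < d then 1 else n i

lemma card_ball {n : Fin d → ℕ} (s : ℕ) (x : (i : Fin d) → Fin (n i)) :
    (univ.filter fun u => depth x u < s).card = ball n s := by
  unfold ball
  split_ifs with h
  · simp [h]
  · rw [← card_agree (s - 1) x]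
    congr 1
    ext u
    simp only [mem_filter, mem_univ, true_and]
    rw [← depth_le_iff]
    omega

/-- The scheme of the leaves of the rooted tree with branching numbers `n 0, ..., n (d-1)`. -/
def treeScheme (n : Fin d → ℕ) (hn : ∀ i, 2 ≤ n i) : SymScheme ((i : Fin d) → Fin (n i)) d where
  rel x y := ⟨depth x y, depth_lt x y⟩
  nonempty := by
    intro i
    have hi := i.is_lt
    refine ⟨fun j => ⟨0, by have := hn j; omega⟩,
      fun j => if j.val + i.val = d then ⟨1, by have := hn j; omega⟩ else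
        ⟨0, by have := hn j; omega⟩, ?_⟩
    apply Fin.ext
    apply le_antisymm
    · show depth _ _ ≤ i.val
      rw [depth_le_iff]
      intro j hj
      beta_reduce
      rw [if_neg (by omega)]
    · by_contra hlt
      rw [not_le] at hlt
      have h1 := (depth_le_iff _ _ _).1 (Nat.le_sub_one_of_lt hlt)
      have h2 := h1 ⟨d - i.val, by omega⟩ (by simp only; omega)
      simp only at h2
      rw [if_pos (by omega)] at h2
      have := congrArg Fin.val h2
      simp at this
  diag := by
    intro x y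
    rw [← Fin.val_eq_zero_iff]
    show depth x y = 0 ↔ _
    rw [← Nat.le_zero, depth_le_iff]
    constructor
    · intro h
      funext i
      exact h i (by have := i.is_lt; omega)
    · rintro rfl i _
      rfl
  symm := by
    intro x y
    apply Fin.ext
    exact depth_symm x y
  regular := regular_raw _ (fun x y => Fin.ext (depth_symm x y))
    (fun x y z => by
      rw [Fin.le_def, Fin.coe_max]
      exact depth_ultra x y z)
    (fun s x x' => by
      show (univ.filter fun u => depth x u < s).card = (univ.filter fun u => depth x' u < s).card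
      rw [card_ball, card_ball])

lemma treeScheme_data (n : Fin d → ℕ) (hn : ∀ i, 2 ≤ n i) :
    (treeScheme n hn).Data (ball n) where
  ultra := fun x y z => by
    rw [Fin.le_def, Fin.coe_max]
    exact depth_ultra x y z
  sum := fun s x => by
    rw [← card_ball s x, Finset.card_filter]
    push_cast
    rfl
  zero := by simp [ball]
  one := by
    unfold ball
    rw [if_neg (by omega)]
    refine Finset.prod_eq_one fun i _ => ?_
    rw [if_pos]
    have := i.is_lt
    omega
  two := by
    intro s hs hsd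
    unfold ball
    rw [if_neg (by omega), if_neg (by omega)]
    have h1 : ∀ i : Fin d, (if i.val + (s + 1 - 1) < d then 1 else n i) =
        (if i.val + (s - 1) < d then 1 else n i) * (if i = ⟨d - s, by omega⟩ then n i else 1) := by
      intro i
      by_cases hi : i = ⟨d - s, by omega⟩
      · have hv : i.val = d - s := by rw [hi]
        rw [if_neg (by omega), if_pos (by omega), if_pos hi, one_mul]
      · have hv : i.val ≠ d - s := fun h => hi (Fin.ext h)
        rw [if_neg hi, mul_one]
        by_cases h : i.val + (s - 1) < d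
        · rw [if_pos (by omega), if_pos h]
        · rw [if_neg (by omega), if_neg h]
    rw [Finset.prod_congr rfl fun i _ => h1 i, Finset.prod_mul_distrib, Finset.prod_ite_eq',
      if_pos (mem_univ _), mul_comm]
    exact Nat.mul_le_mul_left _ (hn _)
  top := by
    unfold ball
    rw [if_neg (by omega), Fintype.card_pi]
    refine Finset.prod_congr rfl fun i _ => ?_
    rw [if_neg (by omega), Fintype.card_fin]

lemma palindrome_iff (n : Fin d → ℕ) (hn : ∀ i, 2 ≤ n i) :
    (∀ s ≤ d, ball n (s + 1) * ball n (d + 1 - s) = ∏ i, n i) ↔ ∀ i, n i = n i.rev := by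
  have hrev : ∀ s, s ≤ d → ball (fun i => n i.rev) (s + 1) * ball n (d + 1 - s) = ∏ i, n i := by
    intro s hs
    unfold ball
    rw [if_neg (by omega), if_neg (by omega)]
    have h1 : (∏ i : Fin d, if i.val + (s + 1 - 1) < d then 1 else n i.rev) =
        ∏ i : Fin d, if i.val < s then n i else 1 := by
      rw [← Equiv.prod_comp Fin.revPerm]
      refine Finset.prod_congr rfl fun i _ => ?_
      have hi := i.is_lt
      simp only [Fin.revPerm_apply, Fin.rev_rev, Fin.val_rev]
      by_cases h : i.val < s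
      · rw [if_neg (by omega), if_pos h]
      · rw [if_pos (by omega), if_neg h]
    rw [h1, ← Finset.prod_mul_distrib]
    refine Finset.prod_congr rfl fun i _ => ?_
    have hi := i.is_lt
    by_cases h : i.val < s
    · rw [if_pos h, if_pos (by omega), mul_one]
    · rw [if_neg h, if_neg (by omega), one_mul]
  have hpos : ∀ (m : Fin d → ℕ) (_ : ∀ i, 2 ≤ m i) (s : ℕ), 0 < ball m (s + 1) := by
    intro m hm s
    unfold ball
    rw [if_neg (by omega)]
    refine Finset.prod_pos fun i _ => ?_
    split_ifs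
    · exact Nat.one_pos
    · have := hm i; omega
  constructor
  · intro h
    have h1 : ∀ s ≤ d, ball n (s + 1) = ball (fun i => n i.rev) (s + 1) := by
      intro s hs
      have h2 := h s hs
      rw [← hrev s hs] at h2
      have h3 := hpos n hn (d - s)
      rw [show d - s + 1 = d + 1 - s by omega] at h3
      exact Nat.eq_of_mul_eq_mul_right h3 h2
    have hstep : ∀ (m : Fin d → ℕ) (s : ℕ) (hs : s < d),
        ball m (s + 2) = ball m (s + 1) * m ⟨d - (s + 1), by omega⟩ := by
      intro m s hs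
      unfold ball
      rw [if_neg (by omega), if_neg (by omega)]
      have h1 : ∀ i : Fin d, (if i.val + (s + 2 - 1) < d then 1 else m i) =
          (if i.val + (s + 1 - 1) < d then 1 else m i) *
            (if i = ⟨d - (s + 1), by omega⟩ then m i else 1) := by
        intro i
        by_cases hi : i = ⟨d - (s + 1), by omega⟩
        · have hv : i.val = d - (s + 1) := by rw [hi]
          rw [if_neg (by omega), if_pos (by omega), if_pos hi, one_mul]
        · have hv : i.val ≠ d - (s + 1) := fun h => hi (Fin.ext h)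
          rw [if_neg hi, mul_one]
          by_cases h : i.val + (s + 1 - 1) < d
          · rw [if_pos (by omega), if_pos h]
          · rw [if_neg (by omega), if_neg h]
      rw [Finset.prod_congr rfl fun i _ => h1 i, Finset.prod_mul_distrib, Finset.prod_ite_eq',
        if_pos (mem_univ _)]
    intro i
    have hi := i.is_lt
    have e1 := h1 i.rev.val (by have := i.rev.is_lt; omega)
    have e2 := h1 (i.rev.val + 1) (by have := i.rev.is_lt; omega)
    have hr : i.rev.val < d := i.rev.is_lt
    rw [hstep n i.rev.val hr, hstep _ i.rev.val hr, ← e1] at e2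
    have e3 := Nat.eq_of_mul_eq_mul_left (hpos n hn i.rev.val) e2
    have e4 : (⟨d - (i.rev.val + 1), by omega⟩ : Fin d) = i := by
      apply Fin.ext
      simp only [Fin.val_rev]
      omega
    rw [e4] at e3
    exact e3
  · intro h s hs
    have : (fun i : Fin d => n i.rev) = n := funext fun i => (h i).symm
    have h2 := hrev s hs
    rw [this] at h2
    exact h2

theorem tree_theorem (d : ℕ) (n : Fin d → ℕ) (hn : ∀ i, 2 ≤ n i) :
    ∃ S : SymScheme ((i : Fin d) → Fin (n i)) d,
      (∀ x y (s : Fin (d + 1)), S.rel x y ≤ s ↔ ∀ i : Fin d, i.val + s.val < d → x i = y i) ∧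
      S.ExactlyTriplyRegular ∧ (S.FormallySelfDual ↔ ∀ i, n i = n i.rev) := by
  have D := treeScheme_data n hn
  refine ⟨treeScheme n hn, fun x y s => ?_, ⟨D.ultra.triplyRegular, D.ultra.duallyTriplyRegular⟩,
    ?_⟩
  · rw [Fin.le_def]
    exact depth_le_iff x y s
  · rw [← palindrome_iff n hn]
    have hc : Fintype.card ((i : Fin d) → Fin (n i)) = ∏ i, n i := by
      rw [Fintype.card_pi]; simp
    rw [← hc]
    exact ⟨fun h => D.forward h, fun h => D.backward h⟩

end Pool.Agent.MP_44674b_co
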